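import Mathlib
import Pool.Agent.Lib.MP_34a884_an.VMain

namespace Pool.Agent.Results.MP_34a884_an.BoundedDet

open Pool.Agent.Lib.MP_34a884_an.Uni

/-- Let `F` be a finite set of real `2 × 2` matrices such that, in some fixed basis, every product
of invertible members of `F` is a real multiple of an integer matrix whose determinant is at most
`N` in absolute value. Then `F` has property (PV). -/
theorem result (F : Finset (Matrix (Fin 2) (Fin 2) ℝ)) (S : Matrix (Fin 2) (Fin 2) ℝ)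
    (hS : S.det ≠ 0) (N : ℕ)
    (h : ∀ L : List (Matrix (Fin 2) (Fin 2) ℝ), (∀ T ∈ L, T ∈ F ∧ T.det ≠ 0) →
      ∃ (c : ℝ) (X : Matrix (Fin 2) (Fin 2) ℤ), |X.det| ≤ N ∧
        S⁻¹ * L.prod * S = c • X.map (Int.cast : ℤ → ℝ)) :
    ∃ α d : ℝ, 0 < α ∧ 0 < d ∧ ∃ k0 : ℕ, 1 ≤ k0 ∧ ∀ k : ℕ, k0 ≤ k → ∀ a : Fin 2 → ℝ,
      ((convexHull ℝ {x : Fin 2 → ℝ | ∃ L : List (Matrix (Fin 2) (Fin 2) ℝ), L.length = k ∧
        (∀ T ∈ L, T ∈ (F : Set (Matrix (Fin 2) (Fin 2) ℝ))) ∧
        x = Matrix.mulVec L.prod a}).extremePoints ℝ).Finite ∧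
      (((convexHull ℝ {x : Fin 2 → ℝ | ∃ L : List (Matrix (Fin 2) (Fin 2) ℝ), L.length = k ∧
        (∀ T ∈ L, T ∈ (F : Set (Matrix (Fin 2) (Fin 2) ℝ))) ∧
        x = Matrix.mulVec L.prod a}).extremePoints ℝ).ncard : ℝ) ≤ α * (k : ℝ) ^ d := by
  classical
  refine pv_of_pb F.finite_toSet (pb_sing F ?_)
  have u1 := Matrix.mul_nonsing_inv _ (isUnit_iff_ne_zero.mpr hS)
  have u2 := Matrix.nonsing_inv_mul _ (isUnit_iff_ne_zero.mpr hS)
  have := pb_conj (F.filter fun T => T.det ≠ 0) hS (by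
    rw [← Finset.coe_image]
    refine pb_bd (N := N) ?_ ?_
    · intro T hT
      obtain ⟨T', g, rfl⟩ := Finset.mem_image.mp hT
      rw [Matrix.det_mul, Matrix.det_mul, Matrix.det_nonsing_inv, Ring.inverse_eq_inv']
      exact mul_ne_zero (mul_ne_zero (inv_ne_zero hS) (Finset.mem_filter.mp g).2) hS
    · intro L hL
      obtain ⟨L', g1, g2⟩ : ∃ L' : List M, (∀ T ∈ L', T ∈ F ∧ T.det ≠ 0) ∧
          L.prod = S⁻¹ * L'.prod * S := by
        induction L with
        | nil => exact ⟨[], by simp, by simp [u2]⟩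
        | cons T L ih =>
          obtain ⟨L', g1, g2⟩ := ih (Sub.cons.mp hL).2
          obtain ⟨T', g, rfl⟩ := Finset.mem_image.mp (Sub.cons.mp hL).1
          refine ⟨T' :: L', by simpa [Finset.mem_filter.mp g] using g1, ?_⟩
          rw [List.prod_cons, List.prod_cons, g2]
          simp only [Matrix.mul_assoc]
          rw [← Matrix.mul_assoc S, u1, Matrix.one_mul]
      obtain ⟨c, X, x1, x2⟩ := h L' g1
      refine ⟨c, X.map (Int.cast : ℤ → ℝ), fun i j => ⟨X i j, rfl⟩, ?_, g2.trans x2⟩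
      have : (X.map (Int.cast : ℤ → ℝ)).det = (X.det : ℝ) := by simp [Matrix.det_fin_two]
      rw [this]
      exact_mod_cast x1)
  simpa using this

end Pool.Agent.Results.MP_34a884_an.BoundedDet
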