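import Mathlib
import Pool.Agent.Lib.MP_34a884_an.Mat

namespace Pool.Agent.Results.MP_34a884_an.ConePairs

open Pool.Agent.Lib.MP_34a884_an

/-- Every pair of real `2 × 2` matrices of positive determinant which, in some common basis, are
each entrywise nonnegative or entrywise nonpositive has property (PV). -/
theorem result (A B S : Matrix (Fin 2) (Fin 2) ℝ) (hA : 0 < A.det) (hB : 0 < B.det)
    (hS : S.det ≠ 0)
    (hA' : (∀ i j, 0 ≤ (S⁻¹ * A * S) i j) ∨ (∀ i j, (S⁻¹ * A * S) i j ≤ 0))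
    (hB' : (∀ i j, 0 ≤ (S⁻¹ * B * S) i j) ∨ (∀ i j, (S⁻¹ * B * S) i j ≤ 0)) :
    ∃ α d : ℝ, 0 < α ∧ 0 < d ∧ ∃ k0 : ℕ, 1 ≤ k0 ∧ ∀ k : ℕ, k0 ≤ k → ∀ a : Fin 2 → ℝ,
      ((convexHull ℝ {x : Fin 2 → ℝ | ∃ L : List (Matrix (Fin 2) (Fin 2) ℝ), L.length = k ∧
        (∀ T ∈ L, T ∈ ({A, B} : Set (Matrix (Fin 2) (Fin 2) ℝ))) ∧
        x = Matrix.mulVec L.prod a}).extremePoints ℝ).Finite ∧
      (((convexHull ℝ {x : Fin 2 → ℝ | ∃ L : List (Matrix (Fin 2) (Fin 2) ℝ), L.length = k ∧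
        (∀ T ∈ L, T ∈ ({A, B} : Set (Matrix (Fin 2) (Fin 2) ℝ))) ∧
        x = Matrix.mulVec L.prod a}).extremePoints ℝ).ncard : ℝ) ≤ α * (k : ℝ) ^ d := by
  have key : ∀ X : M2, ((∀ i j, 0 ≤ (S⁻¹ * X * S) i j) ∨ (∀ i j, (S⁻¹ * X * S) i j ≤ 0)) →
      ∃ (c : ℝ) (X' : M2), (c = 1 ∨ c = -1) ∧ (∀ i j, 0 ≤ X' i j) ∧ X * S = c • (S * X') := by
    intro X hX
    have e : S * (S⁻¹ * X * S) = X * S := by
      rw [← Matrix.mul_assoc, ← Matrix.mul_assoc,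
        Matrix.mul_nonsing_inv S (isUnit_iff_ne_zero.mpr hS), Matrix.one_mul]
    rcases hX with hX | hX
    · exact ⟨1, _, Or.inl rfl, hX, by rw [e, one_smul]⟩
    · exact ⟨-1, -(S⁻¹ * X * S), Or.inr rfl, fun i j => by simpa using hX i j, by
        rw [Matrix.mul_neg, e]; simp⟩
  obtain ⟨s, A', hs, a1, a2⟩ := key A hA'
  obtain ⟨t, B', ht, b1, b2⟩ := key B hB'
  exact pv_of_pb (pb_cone hA hB hS hs ht a1 b1 a2 b2)

end Pool.Agent.Results.MP_34a884_an.ConePairs
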