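import Mathlib
import Pool.Agent.Lib.MP_34a884_an.NMul

namespace Pool.Agent.Results.MP_34a884_an.NegDetClasses

open Pool.Agent.Lib.MP_34a884_an

/-- Let `F` be a finite set of rational `2 × 2` matrices whose invertible members are multiples of
`A` or of `B`, where `det B < 0`. Then `F` has property (PV). -/
theorem result (F : Finset (Matrix (Fin 2) (Fin 2) ℚ)) (A B : Matrix (Fin 2) (Fin 2) ℚ)
    (hB : B.det < 0) (h : ∀ T ∈ F, T.det ≠ 0 → ∃ t : ℚ, T = t • A ∨ T = t • B) :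
    ∃ α d : ℝ, 0 < α ∧ 0 < d ∧ ∃ k0 : ℕ, 1 ≤ k0 ∧ ∀ k : ℕ, k0 ≤ k → ∀ a : Fin 2 → ℝ,
      ((convexHull ℝ {x : Fin 2 → ℝ | ∃ L : List (Matrix (Fin 2) (Fin 2) ℝ), L.length = k ∧
        (∀ T ∈ L, ∃ X ∈ F, X.map (fun r : ℚ => (r : ℝ)) = T) ∧
        x = Matrix.mulVec L.prod a}).extremePoints ℝ).Finite ∧
      (((convexHull ℝ {x : Fin 2 → ℝ | ∃ L : List (Matrix (Fin 2) (Fin 2) ℝ), L.length = k ∧
        (∀ T ∈ L, ∃ X ∈ F, X.map (fun r : ℚ => (r : ℝ)) = T) ∧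
        x = Matrix.mulVec L.prod a}).extremePoints ℝ).ncard : ℝ) ≤ α * (k : ℝ) ^ d := by
  classical
  have hd : ∀ X : Matrix (Fin 2) (Fin 2) ℚ,
      (X.map (fun r : ℚ => (r : ℝ))).det = (X.det : ℝ) := fun X => by
    simp [Matrix.det_fin_two]
  have hs : ∀ (t : ℚ) (X : Matrix (Fin 2) (Fin 2) ℚ), (t • X).map (fun r : ℚ => (r : ℝ))
      = (t : ℝ) • X.map (fun r : ℚ => (r : ℝ)) := fun t X => by
    ext i j; simp
  have := Uni.pv_of_pb (Finset.finite_toSet _) (Neg.pb_two_classes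
    (F.image fun X => X.map (fun r : ℚ => (r : ℝ))) (A := A.map (fun r : ℚ => (r : ℝ)))
    (B := B.map (fun r : ℚ => (r : ℝ))) (by rw [hd]; exact_mod_cast hB) (by
      intro T hT h0
      obtain ⟨X, hX, rfl⟩ := Finset.mem_image.mp hT
      obtain ⟨t, e⟩ := h X hX fun c => h0 (by rw [hd, c]; simp)
      exact ⟨t, e.imp (fun e => by rw [e, hs]) fun e => by rw [e, hs]⟩))
  simpa only [Uni.Orb, Finset.coe_image, Set.mem_image, Finset.mem_coe] using this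

end Pool.Agent.Results.MP_34a884_an.NegDetClasses
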