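import Mathlib
import Pool.Agent.Lib.MP_34a884_an.OCone

namespace Pool.Agent.Results.MP_34a884_an.SplitQuotients

open Pool.Agent.Lib.MP_34a884_an

/-- Let `F` be a finite set of rational `2 × 2` matrices and `G` the set of its invertible
members. Suppose that any two members `S`, `T` of `G` have determinants of the same sign and
`det (S - T) * det S ≤ 0` or `det (S + T) * det S ≤ 0`, and that no cone spanned by two vectors
`u`, `v` of an open half plane is mapped into itself by all members of `G`, or into its negative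
by all members of `G`. Then `F` has property (PV). -/
theorem result (F G : Finset (Matrix (Fin 2) (Fin 2) ℚ)) (hG : ∀ T, T ∈ G ↔ T ∈ F ∧ T.det ≠ 0)
    (h : ∀ S ∈ G, ∀ T ∈ G, 0 < S.det * T.det ∧
      ((S - T).det * S.det ≤ 0 ∨ (S + T).det * S.det ≤ 0))
    (hN : ∀ (u v c : Fin 2 → ℝ) (σ : ℝ), 0 < c ⬝ᵥ u → 0 < c ⬝ᵥ v → σ = 1 ∨ σ = -1 →
      ¬ ∀ T ∈ G, ∀ w, w = u ∨ w = v → ∃ p q : ℝ, 0 ≤ p ∧ 0 ≤ q ∧
        Matrix.mulVec (T.map (fun r : ℚ => (r : ℝ))) w = σ • (p • u + q • v)) :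
    ∃ α d : ℝ, 0 < α ∧ 0 < d ∧ ∃ k0 : ℕ, 1 ≤ k0 ∧ ∀ k : ℕ, k0 ≤ k → ∀ a : Fin 2 → ℝ,
      ((convexHull ℝ {x : Fin 2 → ℝ | ∃ L : List (Matrix (Fin 2) (Fin 2) ℝ), L.length = k ∧
        (∀ T ∈ L, ∃ X ∈ F, X.map (fun r : ℚ => (r : ℝ)) = T) ∧
        x = Matrix.mulVec L.prod a}).extremePoints ℝ).Finite ∧
      (((convexHull ℝ {x : Fin 2 → ℝ | ∃ L : List (Matrix (Fin 2) (Fin 2) ℝ), L.length = k ∧
        (∀ T ∈ L, ∃ X ∈ F, X.map (fun r : ℚ => (r : ℝ)) = T) ∧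
        x = Matrix.mulVec L.prod a}).extremePoints ℝ).ncard : ℝ) ≤ α * (k : ℝ) ^ d := by
  classical
  obtain ⟨c, hc⟩ : ∃ c : Matrix (Fin 2) (Fin 2) ℚ → Matrix (Fin 2) (Fin 2) ℝ,
      c = fun X => X.map (fun r : ℚ => (r : ℝ)) := ⟨_, rfl⟩
  have hd : ∀ X, (c X).det = (X.det : ℝ) := fun X => by simp [hc, Matrix.det_fin_two]
  have hs : ∀ X Y, c X - c Y = c (X - Y) := fun X Y => by ext i j; simp [hc]
  have ha : ∀ X Y, c X + c Y = c (X + Y) := fun X Y => by ext i j; simp [hc]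
  have e : {T | T ∈ F.image c ∧ T.det ≠ 0} = ↑(G.image c) := by
    ext T
    simp only [Set.mem_ofPred_eq, Finset.mem_coe, Finset.mem_image, hG]
    constructor
    · rintro ⟨⟨X, hX, rfl⟩, h0⟩
      exact ⟨X, ⟨hX, fun z => h0 (by rw [hd, z]; simp)⟩, rfl⟩
    · rintro ⟨X, ⟨hX, h0⟩, rfl⟩
      exact ⟨⟨X, hX, rfl⟩, by rw [hd]; exact_mod_cast h0⟩
  have := Uni.pv_of_pb (Finset.finite_toSet _) (Uni.pb_sing (F.image c) (by
    rw [e]
    refine Neg.pb_no_cone _ (fun S hS T hT => ?_) fun u v f σ h1 h2 h3 => ?_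
    · obtain ⟨X, hX, rfl⟩ := Finset.mem_image.mp hS
      obtain ⟨Y, hY, rfl⟩ := Finset.mem_image.mp hT
      rw [hs, ha, hd, hd, hd, hd]
      exact_mod_cast h X hX Y hY
    · have := hN u v f σ h1 h2 h3
      simp only [not_forall, not_exists, not_and] at this
      obtain ⟨T, hT, w, hw, H⟩ := this
      exact ⟨c T, Finset.mem_image_of_mem c hT, w, hw, by rw [hc]; exact H⟩))
  simpa only [hc, Uni.Orb, Finset.coe_image, Set.mem_image, Finset.mem_coe] using this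

end Pool.Agent.Results.MP_34a884_an.SplitQuotients
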